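import Pool.Agent.Helper86.QA.St4

/-!
# Project QD, part A: module TFR (surface groups are torsion free)
-/

set_option autoImplicit false

open MeasureTheory Matrix Set Topology Filter
open scoped ENNReal ComplexConjugate ComplexOrder

namespace Pool.Agent.Helper6.QA

open Pool.Agent.Helper86.QA Pool.Agent.Helper20
open Pool.Agent.Helper35.PM (SurfaceGroup relator)

/-- the letters: `none` is `β`, `some (j, e, k)` is `x_(j,e,k)` -/
private abbrev TX (m : ℕ) : Type := Option (Fin m × Bool × ℤ)

private abbrev TF (m : ℕ) : Type := FreeGroup (TX m)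

/-- the word `w`, shifted by `k` -/
private def tw (m : ℕ) (k : ℤ) : TF m :=
  (List.ofFn fun j : Fin m => (FreeGroup.of (some (j, false, k)) : TF m) *
    FreeGroup.of (some (j, true, k)) * (FreeGroup.of (some (j, false, k)))⁻¹ *
      (FreeGroup.of (some (j, true, k)))⁻¹).prod

private def tg (m : ℕ) : TX m → TF m
  | none => (tw m 0)⁻¹ * FreeGroup.of none
  | some (j, e, k) => FreeGroup.of (some (j, e, k + 1))

private def tg' (m : ℕ) : TX m → TF m
  | none => tw m (-1) * FreeGroup.of none
  | some (j, e, k) => FreeGroup.of (some (j, e, k - 1))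

private def th (m : ℕ) : TF m →* TF m := FreeGroup.lift (tg m)

private def th' (m : ℕ) : TF m →* TF m := FreeGroup.lift (tg' m)

private theorem th_none (m : ℕ) : th m (FreeGroup.of none) = (tw m 0)⁻¹ * FreeGroup.of none := by
  unfold th
  rw [FreeGroup.lift_apply_of]
  rfl

private theorem th_some (m : ℕ) (j : Fin m) (e : Bool) (k : ℤ) :
    th m (FreeGroup.of (some (j, e, k))) = FreeGroup.of (some (j, e, k + 1)) := by
  unfold th
  rw [FreeGroup.lift_apply_of]
  rfl

private theorem th'_none (m : ℕ) :
    th' m (FreeGroup.of none) = tw m (-1) * FreeGroup.of none := by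
  unfold th'
  rw [FreeGroup.lift_apply_of]
  rfl

private theorem th'_some (m : ℕ) (j : Fin m) (e : Bool) (k : ℤ) :
    th' m (FreeGroup.of (some (j, e, k))) = FreeGroup.of (some (j, e, k - 1)) := by
  unfold th'
  rw [FreeGroup.lift_apply_of]
  rfl

private theorem th_tw (m : ℕ) (k : ℤ) : th m (tw m k) = tw m (k + 1) := by
  unfold tw
  rw [map_list_prod, List.map_ofFn]
  refine congrArg (fun f => (List.ofFn f).prod) (funext fun j => ?_)
  simp only [Function.comp_apply, map_mul, map_inv, th_some]

private theorem th'_tw (m : ℕ) (k : ℤ) : th' m (tw m k) = tw m (k - 1) := by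
  unfold tw
  rw [map_list_prod, List.map_ofFn]
  refine congrArg (fun f => (List.ofFn f).prod) (funext fun j => ?_)
  simp only [Function.comp_apply, map_mul, map_inv, th'_some]

private theorem th_th' (m : ℕ) : (th m).comp (th' m) = MonoidHom.id _ := by
  refine FreeGroup.ext_hom _ _ fun a => ?_
  rw [MonoidHom.comp_apply, MonoidHom.id_apply]
  rcases a with _ | ⟨j, e, k⟩
  · rw [th'_none, map_mul, th_tw, th_none, neg_add_cancel, mul_inv_cancel_left]
  · rw [th'_some, th_some, sub_add_cancel]

private theorem th'_th (m : ℕ) : (th' m).comp (th m) = MonoidHom.id _ := by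
  refine FreeGroup.ext_hom _ _ fun a => ?_
  rw [MonoidHom.comp_apply, MonoidHom.id_apply]
  rcases a with _ | ⟨j, e, k⟩
  · rw [th_none, map_mul, map_inv, th'_tw, th'_none, zero_sub, inv_mul_cancel_left]
  · rw [th_some, th'_some, add_sub_cancel_right]

private def tau (m : ℕ) : MulAut (TF m) :=
  MonoidHom.toMulEquiv (th m) (th' m) (th'_th m) (th_th' m)

private theorem tau_apply (m : ℕ) (x : TF m) : tau m x = th m x := rfl

private def tphi (m : ℕ) : Multiplicative ℤ →* MulAut (TF m) := zpowersHom _ (tau m)

private theorem tphi_one (m : ℕ) (x : TF m) : tphi m (Multiplicative.ofAdd 1) x = th m x := by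
  unfold tphi
  rw [zpowersHom_apply, toAdd_ofAdd, zpow_one]
  rfl

private abbrev TG (m : ℕ) : Type := SemidirectProduct (TF m) (Multiplicative ℤ) (tphi m)

/-- images of the generators -/
private def tgen (m : ℕ) (a : Fin (m + 1) × Bool) : TG m :=
  Fin.cases (if a.2 then SemidirectProduct.inl (FreeGroup.of none)
    else SemidirectProduct.inr (Multiplicative.ofAdd 1))
    (fun j => SemidirectProduct.inl (FreeGroup.of (some (j, a.2, 0)))) a.1

private theorem tgen_a (m : ℕ) :
    tgen m (0, false) = SemidirectProduct.inr (Multiplicative.ofAdd 1) := by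
  unfold tgen
  simp

private theorem tgen_b (m : ℕ) :
    tgen m (0, true) = SemidirectProduct.inl (FreeGroup.of none) := by
  unfold tgen
  simp

private theorem tgen_s (m : ℕ) (j : Fin m) (e : Bool) :
    tgen m (j.succ, e) = SemidirectProduct.inl (FreeGroup.of (some (j, e, 0))) := by
  unfold tgen
  simp

private theorem relator_succ (m : ℕ) : relator (m + 1) =
    (FreeGroup.of ((0 : Fin (m + 1)), false) * FreeGroup.of ((0 : Fin (m + 1)), true) *
      (FreeGroup.of ((0 : Fin (m + 1)), false))⁻¹ * (FreeGroup.of ((0 : Fin (m + 1)), true))⁻¹) *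
    (List.ofFn fun j : Fin m => (FreeGroup.of (j.succ, false) : FreeGroup (Fin (m + 1) × Bool)) *
      FreeGroup.of (j.succ, true) * (FreeGroup.of (j.succ, false))⁻¹ *
        (FreeGroup.of (j.succ, true))⁻¹).prod := by
  unfold relator
  rw [List.ofFn_succ, List.prod_cons]

private theorem tgen_rel (m : ℕ) :
    ∀ r ∈ ({relator (m + 1)} : Set (FreeGroup (Fin (m + 1) × Bool))),
      FreeGroup.lift (tgen m) r = 1 := by
  intro r hr
  rw [Set.mem_singleton_iff] at hr
  rw [hr, relator_succ, map_mul, map_mul, map_mul, map_mul, map_inv, map_inv,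
    FreeGroup.lift_apply_of, FreeGroup.lift_apply_of, tgen_a, tgen_b, ← map_inv
      (SemidirectProduct.inr : Multiplicative ℤ →* TG m), ← SemidirectProduct.inl_aut, tphi_one,
    map_list_prod, List.map_ofFn, th_none]
  have h : (List.ofFn (⇑(FreeGroup.lift (tgen m)) ∘ fun j : Fin m =>
      (FreeGroup.of (j.succ, false) : FreeGroup (Fin (m + 1) × Bool)) *
      FreeGroup.of (j.succ, true) * (FreeGroup.of (j.succ, false))⁻¹ *
        (FreeGroup.of (j.succ, true))⁻¹)).prod =
      (SemidirectProduct.inl (tw m 0) : TG m) := by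
    unfold tw
    rw [map_list_prod, List.map_ofFn]
    refine congrArg (fun f => (List.ofFn f).prod) (funext fun j => ?_)
    simp only [Function.comp_apply, map_mul, map_inv, FreeGroup.lift_apply_of, tgen_s]
  rw [h, ← map_inv, ← map_mul, ← map_mul, mul_inv_cancel_right, inv_mul_cancel, map_one]

private def tf (m : ℕ) : SurfaceGroup (m + 1) →* TG m := PresentedGroup.toGroup (tgen_rel m)

/-- the images of the letters -/
private def tk (m : ℕ) : TX m → SurfaceGroup (m + 1)
  | none => PresentedGroup.of (0, true)
  | some (j, e, k) => (PresentedGroup.of (0, false)) ^ k * PresentedGroup.of (j.succ, e) *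
      ((PresentedGroup.of (0, false)) ^ k)⁻¹

private def tn (m : ℕ) : TF m →* SurfaceGroup (m + 1) := FreeGroup.lift (tk m)

private theorem tn_none (m : ℕ) : tn m (FreeGroup.of none) = PresentedGroup.of (0, true) := by
  unfold tn
  rw [FreeGroup.lift_apply_of]
  rfl

private theorem tn_some (m : ℕ) (j : Fin m) (e : Bool) (k : ℤ) :
    tn m (FreeGroup.of (some (j, e, k))) = (PresentedGroup.of (0, false)) ^ k *
      PresentedGroup.of (j.succ, e) * ((PresentedGroup.of (0, false)) ^ k)⁻¹ := by
  unfold tn
  rw [FreeGroup.lift_apply_of]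
  rfl

private theorem tn_rel (m : ℕ) :
    (PresentedGroup.of (0, false) : SurfaceGroup (m + 1)) * PresentedGroup.of (0, true) *
      (PresentedGroup.of (0, false))⁻¹ * (PresentedGroup.of (0, true))⁻¹ * tn m (tw m 0) = 1 := by
  have h0 := PresentedGroup.one_of_mem (rels := ({relator (m + 1)} : Set _))
    (x := relator (m + 1)) rfl
  have h := congrArg (PresentedGroup.mk ({relator (m + 1)} : Set _)) (relator_succ m)
  rw [h0, map_mul, map_mul, map_mul, map_mul, map_inv, map_inv, map_list_prod,
    List.map_ofFn] at h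
  have h2 : tn m (tw m 0) = (List.ofFn (⇑(PresentedGroup.mk ({relator (m + 1)} : Set _)) ∘
      fun j : Fin m => (FreeGroup.of (j.succ, false) : FreeGroup (Fin (m + 1) × Bool)) *
      FreeGroup.of (j.succ, true) * (FreeGroup.of (j.succ, false))⁻¹ *
        (FreeGroup.of (j.succ, true))⁻¹)).prod := by
    unfold tw
    rw [map_list_prod, List.map_ofFn]
    refine congrArg (fun f => (List.ofFn f).prod) (funext fun j => ?_)
    simp only [Function.comp_apply, map_mul, map_inv, tn_some, zpow_zero, inv_one, mul_one,
      one_mul]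
    rfl
  rw [h2]
  exact h.symm

private theorem tn_th (m : ℕ) (x : TF m) : tn m (th m x) =
    PresentedGroup.of (0, false) * tn m x * (PresentedGroup.of (0, false))⁻¹ := by
  have h : (tn m).comp (th m) = (MulAut.conj
      (PresentedGroup.of (0, false) : SurfaceGroup (m + 1))).toMonoidHom.comp (tn m) := by
    refine FreeGroup.ext_hom _ _ fun a => ?_
    change tn m (th m (FreeGroup.of a)) = PresentedGroup.of (0, false) * tn m (FreeGroup.of a) *
      (PresentedGroup.of (0, false))⁻¹
    rcases a with _ | ⟨j, e, k⟩
    · have h1 := tn_rel m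
      rw [th_none, map_mul, map_inv, tn_none]
      have h2 := eq_inv_of_mul_eq_one_right h1
      rw [h2, inv_inv, inv_mul_cancel_right]
    · rw [th_some, tn_some, tn_some, _root_.zpow_add_one]
      group
  exact DFunLike.congr_fun h x

private theorem tn_phi (m : ℕ) (n : ℤ) (x : TF m) : tn m ((tau m ^ n) x) =
    (PresentedGroup.of (0, false)) ^ n * tn m x * ((PresentedGroup.of (0, false)) ^ n)⁻¹ := by
  induction n using Int.induction_on generalizing x with
  | zero => simp
  | succ n ih =>
    rw [_root_.zpow_add_one, MulAut.mul_apply, ih, tau_apply, tn_th, _root_.zpow_add_one]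
    group
  | pred n ih =>
    rw [_root_.zpow_sub_one, MulAut.mul_apply, ih]
    have h := tn_th m ((tau m)⁻¹ x)
    rw [← tau_apply, MulAut.apply_inv_self] at h
    rw [h, _root_.zpow_sub_one]
    group

private def tb (m : ℕ) : TG m →* SurfaceGroup (m + 1) :=
  SemidirectProduct.lift (tn m) (zpowersHom _ (PresentedGroup.of (0, false))) (by
    intro g
    ext1 a
    change tn m ((tphi m g) (FreeGroup.of a)) = zpowersHom _ (PresentedGroup.of (0, false)) g *
      tn m (FreeGroup.of a) * (zpowersHom _ (PresentedGroup.of (0, false)) g)⁻¹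
    unfold tphi
    rw [zpowersHom_apply, zpowersHom_apply]
    exact tn_phi m _ _)

private theorem tb_tf (m : ℕ) (x : SurfaceGroup (m + 1)) : tb m (tf m x) = x := by
  have h : (tb m).comp (tf m) = MonoidHom.id _ := by
    refine PresentedGroup.ext fun a => ?_
    rw [MonoidHom.comp_apply, MonoidHom.id_apply]
    unfold tf
    rw [PresentedGroup.toGroup.of]
    obtain ⟨i, e⟩ := a
    refine Fin.cases ?_ (fun j => ?_) i
    · rcases e with _ | _
      · rw [tgen_a]
        unfold tb
        rw [SemidirectProduct.lift_inr, zpowersHom_apply, toAdd_ofAdd, zpow_one]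
      · rw [tgen_b]
        unfold tb
        rw [SemidirectProduct.lift_inl, tn_none]
    · rw [tgen_s]
      unfold tb
      rw [SemidirectProduct.lift_inl, tn_some, zpow_zero, inv_one, one_mul, mul_one]
  exact DFunLike.congr_fun h x

private theorem free_tf {α : Type} (x : FreeGroup α) (n : ℕ) (hn : 1 ≤ n) (h : x ^ n = 1) :
    x = 1 := by
  exact (pow_eq_one_iff_left (by omega)).1 h

private theorem tG_tf (m : ℕ) (x : TG m) (n : ℕ) (hn : 1 ≤ n) (h : x ^ n = 1) : x = 1 := by
  have h1 : x.right = 1 := by
    have h2 : (SemidirectProduct.rightHom x) ^ n = 1 := by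
      rw [← map_pow, h, map_one]
    exact (pow_eq_one_iff_left (by omega)).1 h2
  have h3 : x = SemidirectProduct.inl x.left := by
    conv_lhs => rw [← SemidirectProduct.inl_left_mul_inr_right x]
    rw [h1, map_one, mul_one]
  rw [h3, ← map_pow] at h
  have h4 : x.left ^ n = 1 := SemidirectProduct.inl_injective (by rw [h, map_one])
  have h5 := free_tf _ n hn h4
  rw [h3, h5, map_one]

theorem hTFR : StTFR := by
  intro g γ n hn h
  rcases g with _ | m
  · obtain ⟨w, rfl⟩ := PresentedGroup.mk_surjective _ γ
    have : w = 1 := by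
      have : Subsingleton (FreeGroup (Fin 0 × Bool)) := by
        refine ⟨fun a b => ?_⟩
        have h2 := FreeGroup.ext_hom (MonoidHom.id (FreeGroup (Fin 0 × Bool))) 1
          (fun a => a.1.elim0)
        have h3 := DFunLike.congr_fun h2 a
        have h4 := DFunLike.congr_fun h2 b
        simp only [MonoidHom.id_apply, MonoidHom.one_apply] at h3 h4
        rw [h3, h4]
      exact Subsingleton.elim _ _
    rw [this, map_one]
  · have h1 : (tf m γ) ^ n = 1 := by rw [← map_pow, h, map_one]
    have h2 := tG_tf m _ n hn h1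
    rw [← tb_tf m γ, h2, map_one]

end Pool.Agent.Helper6.QA
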