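import Pool.Agent.Helper86.QA.St1

/-!
# Project QD (MP_d112a4_gt), part A, module FDX: existence of fundamental domains
-/

set_option autoImplicit false

open MeasureTheory Matrix Set Topology
open scoped ENNReal ComplexConjugate

namespace Pool.Agent.Helper6.QA

open Pool.Agent.Helper86.QA

section

variable {Γ α : Type} (a : Γ → α → α) (S : Set α)

/-- the points of `S` with a translate in `Y` -/
private def FDX_O (Y : Set α) : Set α := {x | x ∈ S ∧ ∃ γ, a γ x ∈ Y}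

/-- the points of `V n` with no translate in an earlier set -/
private def FDX_D (V : ℕ → Set α) : Set α := {x | ∃ n, x ∈ V n ∧ ∀ m < n, x ∉ FDX_O a S (V m)}

private theorem FDX_O_meas [MeasurableSpace α] [Countable Γ] (hS : MeasurableSet S)
    (ha : ∀ γ, Measurable (a γ)) {Y : Set α} (hY : MeasurableSet Y) :
    MeasurableSet (FDX_O a S Y) := by
  have h : FDX_O a S Y = S ∩ ⋃ γ, a γ ⁻¹' Y := by
    ext x
    simp [FDX_O]
  rw [h]
  exact hS.inter (MeasurableSet.iUnion fun γ => ha γ hY)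

private theorem FDX_D_meas [MeasurableSpace α] [Countable Γ] (hS : MeasurableSet S)
    (ha : ∀ γ, Measurable (a γ)) {V : ℕ → Set α} (hV : ∀ n, MeasurableSet (V n)) :
    MeasurableSet (FDX_D a S V) := by
  have h : FDX_D a S V = ⋃ n, V n ∩ ⋂ m, ⋂ (_ : m < n), (FDX_O a S (V m))ᶜ := by
    ext x
    simp [FDX_D]
  rw [h]
  exact MeasurableSet.iUnion fun n => (hV n).inter (MeasurableSet.iInter fun m =>
    MeasurableSet.iInter fun _ => (FDX_O_meas a S hS ha (hV m)).compl)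

end

private theorem FDX_cover {Γ α : Type} [One Γ] [TopologicalSpace α] [SecondCountableTopology α]
    (a : Γ → α → α) (S : Set α)
    (hW : ∀ x ∈ S, ∃ W : Set α, IsOpen W ∧ x ∈ W ∧ W ⊆ S ∧ ∀ γ : Γ, γ ≠ 1 → ∀ y ∈ W, a γ y ∉ W) :
    ∃ W : ℕ → Set α, (∀ n, IsOpen (W n) ∧ W n ⊆ S ∧ ∀ γ : Γ, γ ≠ 1 → ∀ y ∈ W n, a γ y ∉ W n) ∧
      S ⊆ ⋃ n, W n := by
  classical
  rcases S.eq_empty_or_nonempty with hS | hS
  · refine ⟨fun _ => ∅, fun _ => ⟨isOpen_empty, empty_subset _, fun γ _ y hy => hy.elim⟩, ?_⟩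
    rw [hS]
    exact empty_subset _
  choose! W h1 h2 h3 h4 using hW
  obtain ⟨t, ht1, ht2, ht3⟩ := TopologicalSpace.countable_cover_nhdsWithin (f := W) (s := S)
    (fun x hx => mem_nhdsWithin_of_mem_nhds ((h1 x hx).mem_nhds (h2 x hx)))
  have htn : t.Nonempty := by
    rw [nonempty_iff_ne_empty]
    rintro rfl
    obtain ⟨x, hx⟩ := hS
    have := ht3 hx
    simp at this
  obtain ⟨f, hf⟩ := ht2.exists_eq_range htn
  have hfS : ∀ n, f n ∈ S := fun n => ht1 (by rw [hf]; exact mem_range_self n)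
  refine ⟨fun n => W (f n), fun n => ⟨h1 _ (hfS n), h3 _ (hfS n), h4 _ (hfS n)⟩, ?_⟩
  intro x hx
  have h5 := ht3 hx
  rw [hf] at h5
  simpa using h5

theorem hFDX : StFDX := by
  intro Γ _ _ α _ _ _ _ a S U hS hmap hone hmul hmeas hW hU hUS
  obtain ⟨W, hW1, hW2⟩ := FDX_cover a S hW
  obtain ⟨V, hVd⟩ : ∃ V : ℕ → Set α, V = fun n => W n ∩ (U ∪ (FDX_O a S U)ᶜ) := ⟨_, rfl⟩
  have hOU : MeasurableSet (FDX_O a S U) := FDX_O_meas a S hS.measurableSet hmeas hU.measurableSet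
  have hVm : ∀ n, MeasurableSet (V n) := by
    intro n
    rw [hVd]
    exact (hW1 n).1.measurableSet.inter (hU.measurableSet.union hOU.compl)
  have hVW : ∀ n, V n ⊆ W n := by
    intro n
    rw [hVd]
    exact inter_subset_left
  have hVS : ∀ n, V n ⊆ S := fun n => (hVW n).trans (hW1 n).2.1
  have hVf : ∀ n, ∀ γ : Γ, γ ≠ 1 → ∀ y ∈ V n, a γ y ∉ V n := fun n γ hγ y hy hy' =>
    (hW1 n).2.2 γ hγ y (hVW n hy) (hVW n hy')
  have hcov : ∀ x ∈ S, ∃ n, ∃ γ, a γ x ∈ V n := by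
    intro x hx
    by_cases h : x ∈ FDX_O a S U
    · obtain ⟨_, γ, hγ⟩ := h
      obtain ⟨n, hn⟩ := mem_iUnion.1 (hW2 (hUS hγ))
      refine ⟨n, γ, ?_⟩
      rw [hVd]
      exact ⟨hn, Or.inl hγ⟩
    · obtain ⟨n, hn⟩ := mem_iUnion.1 (hW2 hx)
      refine ⟨n, 1, ?_⟩
      rw [hone x hx, hVd]
      exact ⟨hn, Or.inr h⟩
  have htr : ∀ x ∈ S, ∀ γ δ : Γ, a (δ * γ⁻¹) (a γ x) = a δ x := by
    intro x hx γ δ
    rw [← hmul _ _ x hx, inv_mul_cancel_right]
  refine ⟨FDX_D a S V, ⟨FDX_D_meas a S hS.measurableSet hmeas hVm, ?_, ?_⟩, ?_⟩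
  · rintro x ⟨n, hn, _⟩
    exact hVS n hn
  · intro x hx
    classical
    obtain ⟨γ0, hγ0⟩ := Nat.find_spec (hcov x hx)
    have hmin : ∀ m < Nat.find (hcov x hx), ¬ ∃ γ, a γ x ∈ V m := fun m hm => Nat.find_min _ hm
    generalize Nat.find (hcov x hx) = n0 at hγ0 hmin
    refine ⟨γ0, ⟨n0, hγ0, ?_⟩, ?_⟩
    · rintro m hm ⟨_, δ, hδ⟩
      rw [← hmul _ _ x hx] at hδ
      exact hmin m hm ⟨_, hδ⟩
    · rintro γ ⟨n, hn, hnm⟩
      have h1 : n = n0 := by
        rcases lt_trichotomy n n0 with h | h | h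
        · exact absurd ⟨γ, hn⟩ (hmin n h)
        · exact h
        · exfalso
          refine hnm n0 h ⟨hmap γ x hx, γ0 * γ⁻¹, ?_⟩
          rw [htr x hx]
          exact hγ0
      rw [h1] at hn
      by_contra hne
      refine hVf n0 (γ0 * γ⁻¹) ?_ _ hn ?_
      · intro h
        exact hne (mul_inv_eq_one.1 h).symm
      · rw [htr x hx]
        exact hγ0
  · rintro x ⟨n, hn, _⟩ γ hγ
    have hxS := hVS n hn
    rw [hVd] at hn
    rcases hn.2 with h | h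
    · exact h
    · exact absurd ⟨hxS, γ, hγ⟩ h

end Pool.Agent.Helper6.QA
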