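import Pool.Agent.Helper86.QA.St3

/-!
# Project QD, part A: module FLS (substitution in the flux density)
-/

set_option autoImplicit false

open MeasureTheory Matrix Set Topology
open scoped ENNReal ComplexConjugate

namespace Pool.Agent.Helper6.QA

open Pool.Agent.Helper86.QA

private theorem FLS_ae3 : ∀ᵐ q ∂vol3, q.1 ∈ up ∧ q.2.1 ∈ up ∧ q.2.2 ∈ up := by
  unfold vol3
  have h1 : ∀ᵐ q ∂(vol.prod (vol.prod vol)), q.1 ∈ up :=
    Measure.quasiMeasurePreserving_fst.ae ae_up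
  have h2 : ∀ᵐ q ∂(vol.prod vol), q.1 ∈ up ∧ q.2 ∈ up :=
    (Measure.quasiMeasurePreserving_fst.ae ae_up).and
      (Measure.quasiMeasurePreserving_snd.ae ae_up)
  have h3 : ∀ᵐ q ∂(vol.prod (vol.prod vol)), q.2.1 ∈ up ∧ q.2.2 ∈ up :=
    Measure.quasiMeasurePreserving_snd.ae h2
  filter_upwards [h1, h3] with q a b
  exact ⟨a, b.1, b.2⟩

private theorem FLS_mv (hACT : StACT) {x : Pt} (hx : x ∈ up) : mv x = ga (gx x hx) := by
  funext y
  rw [hACT.2.2.2.2.1 x hx y]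
  rfl

private theorem FLS_mp1 (hACT : StACT) (hVOL : StVOL) {x : Pt} (hx : x ∈ up) :
    MeasurePreserving (mv x) vol vol := by
  rw [FLS_mv hACT hx]
  have hm := (hACT.2.2.2.1 (gx x hx)).1
  refine ⟨hm, ?_⟩
  ext s hs
  rw [Measure.map_apply hm hs]
  have h := hVOL.2.1 (gx x hx) (s.indicator 1) (measurable_one.indicator hs)
  rw [lintegral_indicator_one hs] at h
  rw [← h, ← lintegral_indicator_one (hm hs)]
  rfl

private theorem FLS_mp3 (hACT : StACT) (hVOL : StVOL) {x : Pt} (hx : x ∈ up) :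
    MeasurePreserving (fun p : Pt × Pt × Pt => (mv x p.1, mv x p.2.1, mv x p.2.2)) vol3 vol3 := by
  have h := FLS_mp1 hACT hVOL hx
  exact h.prod (h.prod h)

private theorem FLS_kk (x y : Pt) : 0 ≤ kk x y ∧ kk x y ≤ 1 := by
  unfold kk
  split_ifs <;> norm_num

/-- the integrand before the substitution -/
private noncomputable def FLS_H (Pi : Pt → ℂ) (f : Pt → ℝ) (x : Pt) (q : Pt × Pt × Pt) : ℝ :=
  KK q.1 x q.2.1 q.2.2 * (f x - f q.1) * Ar (Pi x) (Pi q.2.1) (Pi q.2.2)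

private theorem FLS_m1 (hDLF : StDLF) (x : Pt) :
    Measurable (fun q : Pt × Pt × Pt => KK q.1 x q.2.1 q.2.2) := by
  have h := hDLF.2.2.2.2.2.2
  have hg : Measurable (fun q : Pt × Pt × Pt => ((q.1, x, q.2) : Pt × Pt × Pt × Pt)) :=
    measurable_fst.prodMk (measurable_const.prodMk measurable_snd)
  have h2 := h.comp hg
  rw [Function.comp_def] at h2
  exact h2

private theorem FLS_m2 (hARC : StARC) {Pi : Pt → ℂ} (hPi : Measurable Pi) (x : Pt) :
    Measurable (fun q : Pt × Pt × Pt => Ar (Pi x) (Pi q.2.1) (Pi q.2.2)) := by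
  have h := hARC.2.2.2.2.2.1
  have hg : Measurable (fun q : Pt × Pt × Pt => ((Pi x, Pi q.2.1, Pi q.2.2) : ℂ × ℂ × ℂ)) :=
    measurable_const.prodMk ((hPi.comp (measurable_fst.comp measurable_snd)).prodMk
        (hPi.comp (measurable_snd.comp measurable_snd)))
  have h2 := h.comp hg
  rw [Function.comp_def] at h2
  exact h2

private theorem FLS_Hm (hDLF : StDLF) (hARC : StARC) {Pi : Pt → ℂ} (hPi : Measurable Pi)
    {f : Pt → ℝ} (hf : Measurable f) (x : Pt) : Measurable (FLS_H Pi f x) := by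
  have h3 : Measurable (fun q : Pt × Pt × Pt => f x - f q.1) :=
    measurable_const.sub (hf.comp measurable_fst)
  exact ((FLS_m1 hDLF x).mul h3).mul (FLS_m2 hARC hPi x)

private theorem FLS_KKb (hDLF : StDLF) {x a b c : Pt} (hx : x ∈ up) (ha : a ∈ up) (hb : b ∈ up)
    (hc : c ∈ up) : |KK a x b c| ≤ 53 * (kk x a * (kk x b * kk x c)) := by
  unfold KK
  by_cases h1 : ch x a ≤ 2
  · by_cases h2 : ch x b ≤ 2
    · by_cases h3 : ch x c ≤ 2
      · have h := hDLF.2.2.2.1 a ha x hx b hb c hc h1 h2 h3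
        have e1 : kk x a = 1 := by unfold kk; rw [if_pos h1]
        have e2 : kk x b = 1 := by unfold kk; rw [if_pos h2]
        have e3 : kk x c = 1 := by unfold kk; rw [if_pos h3]
        rw [e1, e2, e3]
        simpa using h
      · have e3 : kk x c = 0 := by unfold kk; rw [if_neg h3]
        rw [e3]
        simp
    · have e2 : kk x b = 0 := by unfold kk; rw [if_neg h2]
      rw [e2]
      simp
  · have e1 : kk x a = 0 := by unfold kk; rw [if_neg h1]
    rw [e1]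
    simp

private theorem FLS_Hi (hKRN : StKRN) (hDLF : StDLF) (hARC : StARC) {Pi : Pt → ℂ}
    (hPi : Measurable Pi) (hHP : ∀ x, Pi x ∈ HP) {f : Pt → ℝ} (hf : Measurable f) {M : ℝ}
    (hM : ∀ x, |f x| ≤ M) {x : Pt} (hx : x ∈ up) : Integrable (FLS_H Pi f x) vol3 := by
  have hk := (hKRN.2.2 x hx).1
  have hk3 : Integrable (fun q : Pt × Pt × Pt => kk x q.1 * (kk x q.2.1 * kk x q.2.2)) vol3 :=
    hk.mul_prod (hk.mul_prod hk)
  have hb := hk3.const_mul (53 * (2 * M) * (3 * Real.pi))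
  refine hb.mono' (FLS_Hm hDLF hARC hPi hf x).aestronglyMeasurable ?_
  filter_upwards [FLS_ae3] with q hq
  have h1 := FLS_KKb hDLF hx hq.1 hq.2.1 hq.2.2
  have h2 : |f x - f q.1| ≤ 2 * M := by
    have := abs_sub (f x) (f q.1)
    linarith [hM x, hM q.1]
  have h3 := hARC.2.1 (Pi x) (hHP x) (Pi q.2.1) (hHP _) (Pi q.2.2) (hHP _)
  have h0 : 0 ≤ kk x q.1 * (kk x q.2.1 * kk x q.2.2) :=
    mul_nonneg (FLS_kk _ _).1 (mul_nonneg (FLS_kk _ _).1 (FLS_kk _ _).1)
  rw [Real.norm_eq_abs]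
  unfold FLS_H
  rw [abs_mul, abs_mul]
  calc |KK q.1 x q.2.1 q.2.2| * |f x - f q.1| * |Ar (Pi x) (Pi q.2.1) (Pi q.2.2)|
      ≤ (53 * (kk x q.1 * (kk x q.2.1 * kk x q.2.2))) * (2 * M) * (3 * Real.pi) := by
        have hM0 : 0 ≤ 2 * M := le_trans (abs_nonneg _) h2
        refine mul_le_mul (mul_le_mul h1 h2 (abs_nonneg _) (by positivity)) h3 (abs_nonneg _) ?_
        exact mul_nonneg (by positivity) hM0
    _ = 53 * (2 * M) * (3 * Real.pi) * (kk x q.1 * (kk x q.2.1 * kk x q.2.2)) := by ring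

theorem hFLS (hACT : StACT) (hCHI : StCHI) (hVOL : StVOL) (hKRN : StKRN) (hDLF : StDLF)
    (hARC : StARC) (hQQB : StQQB) : StFLS := by
  intro Γ _ ρ σ hσ Pi hPi f hf hM x hx
  obtain ⟨M, hM⟩ := hM
  have hi := FLS_Hi hKRN hDLF hARC hPi.me hPi.hp hf hM hx
  have hm := FLS_Hm hDLF hARC hPi.me hf x
  have e1 : Gf Pi f x = ∫ q, FLS_H Pi f x q ∂vol3 := by
    unfold vol3
    rw [integral_prod _ hi]
    unfold Gf
    refine integral_congr_ae (Filter.Eventually.of_forall fun y => ?_)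
    change kk x y * (f x - f y) * QQ Pi x y = ∫ p, FLS_H Pi f x (y, p) ∂(vol.prod vol)
    unfold QQ
    rw [← integral_const_mul]
    refine integral_congr_ae (Filter.Eventually.of_forall fun p => ?_)
    change kk x y * (f x - f y) * (Dl y x p.1 p.2 * kk x p.1 * kk x p.2 *
      Ar (Pi x) (Pi p.1) (Pi p.2)) = FLS_H Pi f x (y, p)
    unfold FLS_H KK
    ring
  have e2 : ∫ q, FLS_H Pi f x q ∂vol3 =
      ∫ p, FLS_H Pi f x (mv x p.1, mv x p.2.1, mv x p.2.2) ∂vol3 := by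
    have h := FLS_mp3 hACT hVOL hx
    conv_lhs => rw [← h.map_eq]
    exact integral_map h.measurable.aemeasurable hm.aestronglyMeasurable
  rw [e1, e2]
  refine integral_congr_ae ?_
  filter_upwards [FLS_ae3] with p hp
  have h3 : mv x oo = x := by
    unfold mv oo
    ext <;> simp
  have h4 : KK (mv x p.1) x (mv x p.2.1) (mv x p.2.2) = KK p.1 oo p.2.1 p.2.2 := by
    conv_lhs => rw [← h3]
    rw [h3]
    have h5 := (hDLF.2.1 (gx x hx) p.1 hp.1 oo (by unfold up oo; norm_num) p.2.1 hp.2.1 p.2.2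
      hp.2.2).2
    rw [← FLS_mv hACT hx, h3] at h5
    exact h5
  change KK (mv x p.1) x (mv x p.2.1) (mv x p.2.2) * (f x - f (mv x p.1)) *
    Ar (Pi x) (Pi (mv x p.2.1)) (Pi (mv x p.2.2)) = _
  rw [h4]

end Pool.Agent.Helper6.QA
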